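import Pool.Agent.Q124.VN.Word

/-!
# Crossing changes and Vassiliev invariants modulo `N`

Diagrams (starting library `Pool.Agent.H891R2.Jones.Diagram`): `Diagram P` (oriented link diagrams with
marked points `P`, planar or not), `Outer m` (the part of an oriented diagram outside a box through which
`m` strands run, with arbitrary directions `Outer.up`), `Outer.close` (fills the rest of the box with
vertical strands), `Diagram.IsClosed` (the pieces fit together to closed oriented curves).

`Pool.Agent.W639.RB.Defs` (starting library): `Letter m = Bool × Fin (m - 1)` (the letters `σ_i^{±1}`),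
`perm w` (the permutation of the strands of a braid word).  `Pool.Agent.Y463.MP.Defs`: `Flips w S` (the words
obtained from the word `w` by changing some of the crossings whose numbers are in `S`), `switches w S` (the
number of pairs of consecutive crossings which both belong to `S` and are at neighbouring places of the
braid), `osize O`, `dsize D` (the number of crossings and marked points of an outside and of a diagram).

Vassiliev invariants (starting library `Pool.Agent.H832R3.VJ.Defs`): `Dia` (an oriented diagram with
the finite set of its marked points), `Dia.IsLink` (it is a nonempty closed diagram), `IsVassiliev n v` (`v`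
is an integer valued invariant of oriented links of order at most `n`), `unknot`.  `Pool.Agent.Q124.VN`:
`SeparatedMod N d X Y` (some integer valued Vassiliev invariant of order at most `d` takes values on `X` and
`Y` which are not congruent modulo `N`; this implies `Separated d X Y`, that the Kontsevich invariants of `X`
and `Y` differ in degree at most `d`), `wordDia O w` (the diagram with the word `w` in the box of `O`),
`cost X` (`8` times the number of crossings plus `4` times the number of marked points of `X`).
-/

set_option autoImplicit false

namespace Pool.Agent.Results.MP_5f6b43_gt.CrossingChangesModN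

open Finset LaurentPolynomial Pool.Agent.H891R2.Jones Pool.Agent.W639.RB Pool.Agent.Y463.MP
  Pool.Agent.Q124.VN
open Pool.Agent.H832R3.VJ (Dia IsVassiliev unknot Separated)

open Classical in
/-- **Crossing changes are detected by Vassiliev invariants modulo `N` of linear order.**  Let `m ≥ 3`, let
`O` (with `c` crossings and `p` marked points) be the part of an oriented diagram outside a box with `m`
strands, let `w` be a word of length `n` in the letters `σ_i^{±1}`, `S` a set of crossings of `w`, and `s` the
number of pairs of consecutive crossings in `S` at neighbouring places (`switches w S`).  Consider the `2^|S|`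
diagrams obtained from the diagram with `w` in the box by changing some of the crossings in `S`.

* If `O` with vertical strands in the box is a diagram of closed curves and the permutation of `w` preserves
  the directions of the strands, then all of them are link diagrams.
* There are `r < 1` and `C`, depending only on `m`, such that for all `N ≥ 2` and all
  `d ≥ 8 (c + n) + 4 (p + m n)` the following holds.  Let `Y` be a diagram with `8 c_Y + 4 p_Y ≤ d`, for
  instance the unknot (`d ≥ 4`).  For all except a proportion of at most `C r^s` of the `2^|S|` diagrams some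
  Vassiliev invariant of order at most `d` takes values on this diagram and on `Y` which are not congruent
  modulo `N`.
* For all `N ≥ 2` and `κ` there are `ε > 0` and `C` such that for the same `d`, if the word and the outside
  together have at most `κ (s + 1)` crossings and marked points, all except a proportion of at most `C r^s` of
  the diagrams are separated in this way from all diagrams `Y` with at most `ε s` crossings and marked points
  at once. -/
theorem result (m : ℕ) (hm : 3 ≤ m) :
    (∀ (O : Outer m), O.close.IsClosed → ∀ (n : ℕ) (w : Fin n → Letter m),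
      (∀ j, O.up (perm w j) = O.up j) → ∀ (S : Finset (Fin n)), ∀ w' ∈ Flips w S, (wordDia O w').IsLink) ∧
    cost unknot = 4 ∧
    ∃ r : ℝ, 0 < r ∧ r < 1 ∧
    (∃ C : ℝ, ∀ N : ℕ, 2 ≤ N → ∀ (O : Outer m) (Y : Dia) (n : ℕ) (w : Fin n → Letter m)
      (S : Finset (Fin n)) (d : ℕ), 8 * (O.crossings.length + n) + 4 * (Nat.card O.P + m * n) ≤ d →
      cost Y ≤ d →
      (((Flips w S).filter (fun w' => ¬ SeparatedMod N d (wordDia O w') Y)).card : ℝ) ≤
        C * r ^ switches w S * (Flips w S).card) ∧
    (∀ N : ℕ, 2 ≤ N → ∀ κ : ℝ, ∃ ε : ℝ, 0 < ε ∧ ∃ C : ℝ, ∀ (O : Outer m) (n : ℕ) (w : Fin n → Letter m)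
      (S : Finset (Fin n)) (d : ℕ), 8 * (O.crossings.length + n) + 4 * (Nat.card O.P + m * n) ≤ d →
      (osize O + n : ℝ) ≤ κ * (switches w S + 1) →
      (((Flips w S).filter (fun w' => ∃ Y : Dia, (dsize Y.D : ℝ) ≤ ε * switches w S ∧
          ¬ SeparatedMod N d (wordDia O w') Y)).card : ℝ) ≤
        C * r ^ switches w S * (Flips w S).card) := by
  refine ⟨fun O hO n w hup S w' hw' => wordDia_link (by omega) O hO w' (by
    rw [perm_flips w w' S hw']
    exact hup), cost_unknot, ?_⟩
  obtain ⟨r, hr0, hr1, ⟨C, hC⟩, h2⟩ := finalS hm
  refine ⟨r, hr0, hr1, ⟨C, ?_⟩, ?_⟩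
  · intro N hN O Y n w S d hd hY
    rw [card_Flips]
    refine le_trans ?_ (hC N hN O Y.D.fPoly n w S)
    norm_cast
    apply Finset.card_le_card
    intro w' hw'
    rw [Finset.mem_filter] at hw' ⊢
    refine ⟨hw'.1, ?_⟩
    by_contra hne
    apply hw'.2
    refine sepMod_cost N d _ _ ?_ hY hne
    rw [cost_wordDia]
    exact hd
  · intro N hN κ
    obtain ⟨δ, hδ, C, hC⟩ := h2 N hN κ
    obtain ⟨ε, hε, C', hC'⟩ := shortS r hr0 hr1 N κ δ hδ C hC
    refine ⟨min ε 1, lt_min hε one_pos, C', ?_⟩
    intro O n w S d hd hO
    rw [card_Flips]
    refine le_trans ?_ (hC' O n w S hO)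
    norm_cast
    apply Finset.card_le_card
    intro w' hw'
    rw [Finset.mem_filter] at hw' ⊢
    obtain ⟨hw1, Y, hY, hs⟩ := hw'
    have hsn : (0 : ℝ) ≤ switches w S := Nat.cast_nonneg _
    refine ⟨hw1, Y.P, Y.fin, Y.D, hY.trans (mul_le_mul_of_nonneg_right (min_le_left _ _) hsn), ?_⟩
    by_contra hne
    apply hs
    refine sepMod_cost N d _ _ ?_ ?_ hne
    · rw [cost_wordDia]
      exact hd
    · have h4 : (dsize Y.D : ℝ) ≤ switches w S := by
        refine hY.trans ?_
        calc min ε 1 * (switches w S : ℝ) ≤ 1 * switches w S :=
              mul_le_mul_of_nonneg_right (min_le_right _ _) hsn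
          _ = _ := one_mul _
      have h5 : dsize Y.D ≤ switches w S := by exact_mod_cast h4
      have h6 := switches_le w S
      unfold dsize at h5
      unfold cost
      omega

end Pool.Agent.Results.MP_5f6b43_gt.CrossingChangesModN
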