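import Pool.Agent.TH561.FP.OrdM

/-!
# Vassiliev invariants of small order detect freely periodic knots

`Pool.Agent.TH561.PK.Defs` contains the definitions:

* `Elem M`: an elementary tangle on `M` vertical strands: a crossing of one of the two kinds between
  the places `i` and `i + 1`, or a hook (the two lower points at the places `i`, `i + 1` are joined by a
  cap, the two upper points by a cup);
* `annular w dir`: the closure in the annulus of the tangle `w 0, w 1, …, w (L-1)` (one above the
  other); its marked points are the points `(t, j)` (level `t ∈ ℤ/L`, place `j`);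
* `Oriented w dir`: `dir` is an orientation of the curves of this diagram (`dir (t, j) = true`: upwards);
* `linking dir t`: number of the strands directed upwards minus number of the strands directed
  downwards at the level `t`, which is the linking number with the axis of the annulus;
* `IsKnot D`: all marked points are on one curve.

`freeWord n w a` (in `Pool.Agent.TH561.FP.Defs`) is the word `w` repeated `n` times, followed by `a`
full twists on all `M` strands, that is by the word `(σ_0 σ_1 ⋯ σ_{M-2})^M` repeated `|a|` times, with
crossings of the kind given by the sign of `a`.  So `annular (freeWord n w a) dir` is a knot which is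
invariant under a rotation of order `n` around the axis of the annulus combined with a rotation along
the axis; if `a` is prime to `n`, this is a free action of `ℤ/n` on the 3-sphere and the quotient is a
knot in the lens space `L(n, a)`, whose homology class is `λ` times the one of a core, `λ` the linking
number with the axis.  For `a = 0` it is an ordinary periodic knot.

Vassiliev invariants: `Pool.Agent.H832R3.VJ.Defs` (`Dia`: an oriented diagram with the finite set of its
marked points; `Move`: relabelling, subdivision of strands and the Reidemeister moves; `sing`: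
extension to diagrams with double points by the Vassiliev skein relation; `IsVassiliev n v`: `v` is
an invariant of oriented links of order at most `n`; `Separated d X Y`: some integer valued
Vassiliev invariant of order at most `d` has different values on `X` and `Y`; `unknot`).
`Diagram`, `Diagram.IsClosed`: `Pool.Agent.H891R2.Jones.Diagram`.
-/

set_option autoImplicit false

namespace Pool.Agent.Results.MP_5f6b43_gt.FreelyPeriodicKnots

open Pool.Agent.H891R2.Jones Pool.Agent.TH561.PK Pool.Agent.TH561.FP
open Pool.Agent.H832R3.VJ (Separated unknot)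

theorem exists_prime_pow {n M : ℕ} (h : ¬ n ∣ (Finset.Icc 1 M).lcm id) :
    ∃ p k : ℕ, p.Prime ∧ M < p ^ k ∧ p ^ k ∣ n := by
  rw [Nat.dvd_iff_prime_pow_dvd_dvd] at h
  push Not at h
  obtain ⟨p, k, hp, h1, h2⟩ := h
  refine ⟨p, k, hp, ?_, h1⟩
  by_contra hcon
  push Not at hcon
  apply h2
  have : p ^ k ∈ Finset.Icc 1 M :=
    Finset.mem_Icc.2 ⟨Nat.one_le_iff_ne_zero.2 (pow_ne_zero k hp.ne_zero), hcon⟩
  exact Finset.dvd_lcm this

theorem small {q : ℕ} {x : ℤ} (hx : x ≠ 0) (h : (q : ℤ) ∣ x) : q ≤ x.natAbs :=
  Nat.le_of_dvd (Int.natAbs_pos.2 hx) (Int.natCast_dvd.1 h)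

/-- Let `D` be a knot diagram which is the closure in the annulus of `w ^ n` followed by `a` full twists
on all strands (a freely periodic knot of order `n` if `a` is prime to `n`, a periodic knot if `a = 0`),
and let `λ` be its linking number with the axis.

* Let `q = p ^ k ≥ 4` be a prime power which divides `n`.  If `p` is odd, then `λ ≡ ± 1` or `a λ ≡ ± 1`
  modulo `q`, or some Vassiliev invariant of order at most `q - 2` takes different values on `D` and on
  the unknot.  If `p = 2`, then `2 λ ≡ ± 2` or `a λ ≡ ± 1` modulo `q`, or this holds for some Vassiliev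
  invariant of order at most `4 q - 9`.  (So if the degrees up to `q - 2`, respectively `4 q - 9`, of the
  Kontsevich invariant of `D` are those of the unknot, then the quotient has, up to sign and modulo `q`,
  respectively `q / 2`, the homology class of one of the two cores of the lens space.)
* If neither `λ` nor `a λ` is `± 1`, then for every order `n` that does not divide
  `lcm(1, 2, …, 2 |λ| + |a λ| + 3)`, that is for all but finitely many `n`, and all tangles `w`, some
  Vassiliev invariant of order at most `4 q - 9`, `q` a prime power dividing `n`, takes different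
  values on `D` and on the unknot. -/
theorem result (M l n : ℕ) (hl : 0 < l) (hn : 0 < n) (w : Fin l → Elem M) (a : ℤ)
    (dir : Fin (n * l + a.natAbs * (M * (M - 1))) × Fin M → Bool)
    (ho : Oriented (freeWord n w a) dir) (hK : IsKnot (annular (freeWord n w a) dir)) :
    (annular (freeWord n w a) dir).IsClosed ∧
    (∀ t t', linking dir t = linking dir t') ∧
    (∀ p k : ℕ, p.Prime → p ≠ 2 → 4 ≤ p ^ k → p ^ k ∣ n → ∀ t,
      (p ^ k : ℤ) ∣ linking dir t - 1 ∨ (p ^ k : ℤ) ∣ linking dir t + 1 ∨
      (p ^ k : ℤ) ∣ a * linking dir t - 1 ∨ (p ^ k : ℤ) ∣ a * linking dir t + 1 ∨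
      Separated (p ^ k - 2) ⟨_, inferInstance, annular (freeWord n w a) dir⟩ unknot) ∧
    (∀ k : ℕ, 2 ≤ k → 2 ^ k ∣ n → ∀ t,
      (2 ^ k : ℤ) ∣ 2 * (linking dir t - 1) ∨ (2 ^ k : ℤ) ∣ 2 * (linking dir t + 1) ∨
      (2 ^ k : ℤ) ∣ a * linking dir t - 1 ∨ (2 ^ k : ℤ) ∣ a * linking dir t + 1 ∨
      Separated (4 * 2 ^ k - 9) ⟨_, inferInstance, annular (freeWord n w a) dir⟩ unknot) ∧
    (∀ t, |linking dir t| ≠ 1 → |a * linking dir t| ≠ 1 →
      ¬ n ∣ (Finset.Icc 1 (2 * (linking dir t).natAbs + (a * linking dir t).natAbs + 3)).lcm id →
      ∃ p k : ℕ, p.Prime ∧ p ^ k ∣ n ∧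
        Separated (4 * p ^ k - 9) ⟨_, inferInstance, annular (freeWord n w a) dir⟩ unknot) := by
  have hM : 0 < M := by
    have := (w ⟨0, hl⟩).2.2
    omega
  have h0 : ∀ p k : ℕ, p.Prime → 4 ≤ p ^ k → p ^ k ∣ n → ∀ t,
      Separated (ord p (p ^ k)) ⟨_, inferInstance, annular (freeWord n w a) dir⟩ unknot ∨
      ((p ^ k : ℤ) ∣ 2 * (linking dir t - 1) ∨ (p ^ k : ℤ) ∣ 2 * (linking dir t + 1) ∨
      (p ^ k : ℤ) ∣ a * linking dir t - 1 ∨ (p ^ k : ℤ) ∣ a * linking dir t + 1) := by
    intro p k hp hq hpn t
    by_cases hS : Separated (ord p (p ^ k)) ⟨_, inferInstance, annular (freeWord n w a) dir⟩ unknot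
    · exact Or.inl hS
    · right
      have : Fact p.Prime := ⟨hp⟩
      exact order_main_n p hp k n hq hpn hn hM w hl a dir ho hK hS t
  refine ⟨annular_closed _ dir ho, linking_const _ dir ho, ?_, ?_, ?_⟩
  · intro p k hp hp2 hq hpn t
    have e : ord p (p ^ k) = p ^ k - 2 := by
      unfold ord
      rw [if_neg hp2]
    have hcop : IsCoprime ((p : ℤ) ^ k) 2 := by
      have h5 : IsCoprime (p : ℤ) 2 := by
        rw [Int.isCoprime_iff_gcd_eq_one]
        have : Nat.Coprime p 2 := (Nat.coprime_primes hp Nat.prime_two).2 hp2
        exact_mod_cast this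
      exact h5.pow_left
    rcases h0 p k hp hq hpn t with h | h | h | h | h
    · rw [e] at h
      exact Or.inr (Or.inr (Or.inr (Or.inr h)))
    · exact Or.inl (hcop.dvd_of_dvd_mul_left h)
    · exact Or.inr (Or.inl (hcop.dvd_of_dvd_mul_left h))
    · exact Or.inr (Or.inr (Or.inl h))
    · exact Or.inr (Or.inr (Or.inr (Or.inl h)))
  · intro k hk hpn t
    have h4 : 4 ≤ 2 ^ k := by
      calc 4 = 2 ^ 2 := rfl
        _ ≤ 2 ^ k := Nat.pow_le_pow_right (by norm_num) hk
    have e : ord 2 (2 ^ k) = 4 * 2 ^ k - 9 := by
      unfold ord
      rw [if_pos rfl]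
    rcases h0 2 k Nat.prime_two h4 hpn t with h | h | h | h | h
    · rw [e] at h
      exact Or.inr (Or.inr (Or.inr (Or.inr h)))
    · exact Or.inl (by exact_mod_cast h)
    · exact Or.inr (Or.inl (by exact_mod_cast h))
    · exact Or.inr (Or.inr (Or.inl (by exact_mod_cast h)))
    · exact Or.inr (Or.inr (Or.inr (Or.inl (by exact_mod_cast h))))
  · intro t ht1 ht2 hlcm
    obtain ⟨p, k, hp, hbig, hpn⟩ := exists_prime_pow hlcm
    refine ⟨p, k, hp, hpn, ?_⟩
    have hcast : ((p ^ k : ℕ) : ℤ) = (p : ℤ) ^ k := by push_cast; rfl
    rcases h0 p k hp (by omega) hpn t with h | h | h | h | h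
    · obtain ⟨m, hm, v, hv, hne⟩ := h
      refine ⟨m, hm.trans ?_, v, hv, hne⟩
      unfold ord
      have hbig' : 3 < p ^ k := by omega
      split_ifs <;> omega
    · exfalso
      rw [← hcast] at h
      generalize p ^ k = q at h hbig
      generalize linking dir t = lam at *
      have h3 : (2 * (lam - 1) : ℤ) ≠ 0 := by
        intro h4
        apply ht1
        have : lam = 1 := by omega
        rw [this]; rfl
      have := small h3 h
      omega
    · exfalso
      rw [← hcast] at h
      generalize p ^ k = q at h hbig
      generalize linking dir t = lam at *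
      have h3 : (2 * (lam + 1) : ℤ) ≠ 0 := by
        intro h4
        apply ht1
        have : lam = -1 := by omega
        rw [this]; rfl
      have := small h3 h
      omega
    · exfalso
      rw [← hcast] at h
      generalize p ^ k = q at h hbig
      generalize a * linking dir t = mu at *
      have h3 : (mu - 1 : ℤ) ≠ 0 := by
        intro h4
        apply ht2
        have : mu = 1 := by omega
        rw [this]; rfl
      have := small h3 h
      omega
    · exfalso
      rw [← hcast] at h
      generalize p ^ k = q at h hbig
      generalize a * linking dir t = mu at *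
      have h3 : (mu + 1 : ℤ) ≠ 0 := by
        intro h4
        apply ht2
        have : mu = -1 := by omega
        rw [this]; rfl
      have := small h3 h
      omega

end Pool.Agent.Results.MP_5f6b43_gt.FreelyPeriodicKnots
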