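import Pool.Agent.H832R3.VJ.Fin

/-!
# Vassiliev invariants of bounded order detect links with lacunary twist numbers

Diagrams: `Pool.Agent.H891R2.Jones.Diagram` (`Crossing`, `Diagram`: oriented link diagrams with
marked points; `Diagram.IsClosed`) and `Pool.Agent.H891R2.MT.Defs` (`Ribbon k`: a ribbon graph with
`k` edges, given by the rotation system on its `2 k` darts; `Ribbon.verts`, `Ribbon.comps`;
`Ribbon.Planar`: a connected plane graph; `Ribbon.link n`: the unoriented link diagram which is the
boundary of the surface made of one disc for every vertex and, for every edge `e`, a band with `n e`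
half twists, that is, a row of `|n e|` crossings; every connected diagram is of this form with all
`n e = ± 1`; `Orients D U`: `D` is the unoriented diagram `U` with directions).
`Ribbon.Bridgeless S` (in `Pool.Agent.H891R2.MT.T8`): no edge of `S` is a bridge of the graph with
edge set `S`, that is, `S` is a union of cycles.

Vassiliev invariants: `Pool.Agent.H832R3.VJ.Defs` (`Dia`: an oriented diagram with the finite set of
its marked points; `Move`: relabelling, subdivision of strands and the Reidemeister moves; `sing`: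
extension to diagrams with double points by the Vassiliev skein relation; `IsVassiliev n v`: `v` is
an invariant of oriented links of order at most `n`; `Separated d X Y`: some integer valued
Vassiliev invariant of order at most `d` has different values on `X` and `Y`; `unknot`).
-/

set_option autoImplicit false

namespace Pool.Agent.Results.MP_5f6b43_gt.LacunaryOrder

open Finset LaurentPolynomial Pool.Agent.H891R2.Jones Pool.Agent.H891R2.MT Pool.Agent.H832R3.VJ

/-- the sums of `n` over any two unions of cycles are equal or differ by more than `L` -/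
def Lacunary {k : ℕ} (Γ : Ribbon k) (L : ℕ) (n : Fin k → ℤ) : Prop :=
  ∀ S S' : Finset (Fin k), Γ.Bridgeless S → Γ.Bridgeless S' →
    ∑ e ∈ S, n e = ∑ e ∈ S', n e ∨ (L : ℤ) < |∑ e ∈ S, n e - ∑ e ∈ S', n e|

/-- the crossingless diagram of the unlink with `c` components, with one marked point on each of them -/
def unlink (c : ℕ) : Dia := ⟨Fin c, inferInstance, ⟨(List.finRange c).map (fun i => (i, i)), []⟩⟩

lemma loops_unlink (c : ℕ) (s : Fin (unlink c).D.crossings.length → Bool) :
    (unlink c).D.loops s = c := by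
  unfold Diagram.loops
  have hr : ∀ p q : Fin c, (unlink c).D.Joined s p q → p = q := by
    rintro p q (h | ⟨i, _⟩)
    · have h1 : (p, q) ∈ (List.finRange c).map (fun i => (i, i)) := h
      rw [List.mem_map] at h1
      obtain ⟨i, _, hi⟩ := h1
      rw [Prod.mk.injEq] at hi
      exact hi.1.symm.trans hi.2
    · exact i.elim0
  have e : Quot ((unlink c).D.Joined s) ≃ Fin c :=
    { toFun := Quot.lift id (fun a b h => hr a b h)
      invFun := fun a => Quot.mk _ a
      left_inv := by
        intro x
        induction x using Quot.ind with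
        | mk a => rfl
      right_inv := fun _ => rfl }
  rw [Nat.card_congr e, Nat.card_eq_fintype_card, Fintype.card_fin]

lemma fPoly_unlink (c : ℕ) : (unlink c).D.fPoly = (-T 2 - T (-2)) ^ (c - 1) := by
  have hw : (unlink c).D.writhe = 0 := rfl
  have hb : (unlink c).D.bracket = (-T 2 - T (-2)) ^ (c - 1) := by
    unfold Diagram.bracket
    have h2 : ∀ s : Fin (unlink c).D.crossings.length → Bool, Diagram.weight s = 0 := fun s => by
      unfold Diagram.weight
      exact Finset.sum_eq_zero (fun i _ => i.elim0)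
    simp only [loops_unlink, h2, T_zero, one_mul]
    rw [Finset.sum_const, Finset.card_univ]
    have : Fintype.card (Fin (unlink c).D.crossings.length → Bool) = 1 := by
      rw [Fintype.card_fun]
      rfl
    rw [this, one_smul]
  unfold Diagram.fPoly
  rw [hw, hb]
  simp

lemma sep {k : ℕ} (hk0 : 0 < k) (Γ : Ribbon k) (hΓ : Γ.Planar) (hk : Γ.verts ≤ k)
    (n : Fin k → ℤ) (hn : Lacunary Γ (4 * k + 3) n) (D : Diagram (Ribbon.Pt n))
    (hD : Orients D (Γ.link n)) (hc : D.IsClosed) (Y : Dia) (c : ℕ)
    (hY : Y.D.fPoly = (-T 2 - T (-2)) ^ c) (hcv : c ≤ k - Γ.verts) :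
    Separated ((2 ^ k + 1) * (8 * k + 9)) ⟨_, inferInstance, D⟩ Y := by
  by_contra h
  obtain ⟨ε, m, hε, hf⟩ := fPoly_orients hk0 Γ n D hD
  have heq : D.fPoly = Y.D.fPoly := by
    by_contra hne
    apply h
    refine FinL.separated_mono (Nat.sub_le _ 1) (separated_of_ne ((2 ^ k + 1) * (8 * k + 9))
      ⟨_, inferInstance, D⟩ Y ((-T 2 - T (-2)) ^ (0 + (1 + (Γ.verts + k))))
      (pow_ne_zero _ FinL.delta_ne) ?_ hne)
    rw [hY, mul_sub]
    refine (FinL.card_support_sub _ _).trans ?_
    have e1 : ((-T 2 - T (-2) : ℤ[T;T⁻¹]) ^ (0 + (1 + (Γ.verts + k)))) *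
        D.fPoly = C ε * T m * ((-T 2 - T (-2)) ^ (0 + (1 + (Γ.verts + k))) *
          (Γ.link n).std.bracket) := by
      rw [hf]
      ring
    have b1 : (((-T 2 - T (-2) : ℤ[T;T⁻¹]) ^ (0 + (1 + (Γ.verts + k)))) *
        D.fPoly).coeff.support.card ≤ 2 ^ k * (8 * k + 9) := by
      rw [e1]
      refine (FinL.card_support_unit _ _ _).trans ((card_terms Γ hΓ hk0 n 0).trans ?_)
      exact Nat.mul_le_mul_left _ (by omega)
    have b2 : (((-T 2 - T (-2) : ℤ[T;T⁻¹]) ^ (0 + (1 + (Γ.verts + k)))) *
        (-T 2 - T (-2)) ^ c).coeff.support.card ≤ 8 * k + 9 := by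
      rw [← pow_add]
      refine card_support_le _ (-(4 * k + 4)) (8 * k + 8) ?_
      refine (T4b.SIn_d.pow _).mono ?_ ?_ <;> push_cast <;> omega
    have b3 := add_le_add b1 b2
    refine b3.trans (le_of_eq ?_)
    ring
  refine lacunary Γ hΓ hk0 hk n (fun S S' hS hS' h => ?_) ⟨D, hD, hc, -2 * c, ?_⟩
  · rcases hn S S' hS hS' with h2 | h2
    · exact h2
    · push_cast at h2
      omega
  · intro j hj
    rw [heq, hY] at hj
    have h1 := (T4b.SIn_d.pow c) j hj
    have h2 : (c : ℤ) ≤ ((k - Γ.verts : ℕ) : ℤ) := by exact_mod_cast hcv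
    constructor <;> linarith [h1.1, h1.2]

lemma lac_of_dvd {k : ℕ} (Γ : Ribbon k) (L : ℕ) (n : Fin k → ℤ) (h : ∀ e, ((L : ℤ) + 1) ∣ n e) :
    Lacunary Γ L n := by
  intro S S' _ _
  by_cases h0 : ∑ e ∈ S, n e = ∑ e ∈ S', n e
  · exact Or.inl h0
  · right
    have h1 : ((L : ℤ) + 1) ∣ ∑ e ∈ S, n e - ∑ e ∈ S', n e :=
      dvd_sub (Finset.dvd_sum fun e _ => h e) (Finset.dvd_sum fun e _ => h e)
    have h2 := Int.le_of_dvd (abs_pos.2 (sub_ne_zero.2 h0)) ((dvd_abs _ _).2 h1)
    linarith

/-- **Vassiliev invariants of bounded order detect links with lacunary twist numbers.**  Let `Γ` be a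
connected plane graph with `v` vertices and `k ≥ v` edges (not a tree), let `n ∈ ℤ^k`, and let `D` be
the link diagram with a row of `|n e|` crossings on each edge `e`, with arbitrary directions.  Suppose
that the sums of `n` over any two unions of cycles of `Γ` are equal or differ by more than `4 k + 3`;
this is so, in particular, if all the `n e` are divisible by `4 k + 4`.

Then `D` is separated from the unknot by a Vassiliev invariant of order at most
`(2 ^ k + 1) * (8 * k + 9)`, a number which does not depend on `n`.  The same holds for the unlinks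
with at most `k + 1 - v` components. -/
theorem result (k : ℕ) (hk0 : 0 < k) (Γ : Ribbon k) (hΓ : Γ.Planar) (hk : Γ.verts ≤ k) :
    (∀ n : Fin k → ℤ, (∀ e, (4 * k + 4 : ℤ) ∣ n e) → Lacunary Γ (4 * k + 3) n) ∧
    ∀ n : Fin k → ℤ, Lacunary Γ (4 * k + 3) n → ∀ D : Diagram (Ribbon.Pt n),
      Orients D (Γ.link n) → D.IsClosed →
      Separated ((2 ^ k + 1) * (8 * k + 9)) ⟨_, inferInstance, D⟩ unknot ∧
      ∀ c : ℕ, 1 ≤ c → c ≤ k + 1 - Γ.verts →
        Separated ((2 ^ k + 1) * (8 * k + 9)) ⟨_, inferInstance, D⟩ (unlink c) := by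
  refine ⟨fun n hn => lac_of_dvd Γ _ n fun e => ?_, fun n hn D hD hc => ⟨?_, fun c hc1 hc2 => ?_⟩⟩
  · have h := hn e
    have e2 : (((4 * k + 3 : ℕ) : ℤ) + 1) = (4 * k + 4 : ℤ) := by push_cast; ring
    rw [e2]
    exact h
  · refine sep hk0 Γ hΓ hk n hn D hD hc unknot 0 ?_ (Nat.zero_le _)
    rw [fPoly_unknot, pow_zero]
  · exact sep hk0 Γ hΓ hk n hn D hD hc (unlink c) (c - 1) (fPoly_unlink c) (by omega)

end Pool.Agent.Results.MP_5f6b43_gt.LacunaryOrder
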