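import Pool.Agent.Q124.VN.Box

/-!
# Vassiliev invariants modulo `N` detect diagrams with random twist regions

Diagrams (starting library `Pool.Agent.H891R2.Jones.Diagram`): `Diagram P` (oriented link diagrams with
marked points `P`, planar or not), `Outer m` (the part of an oriented diagram outside a box through which
`m` strands run, with arbitrary directions `Outer.up`), `Outer.close` (fills the rest of the box with
vertical strands), `Diagram.IsClosed` (the pieces fit together to closed oriented curves).

`Pool.Agent.W639.RB.Defs` (starting library): `Letter m = Bool × Fin (m - 1)` (the letters `σ_i^{±1}`).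
`Pool.Agent.Y463.SK.Defs`: `permW w` (the permutation of the strands of a braid word).
`Pool.Agent.Y463.UT.Defs`: `Law` (probability distributions with finite support on `ℤ`), `Law.Spread ε` (no
value has probability larger than `ε`), `prob μ E` (the probability of `E` for independent integers with the
distributions `μ_j`), `tw i x` (the word `σ_{i_1}^{x_1} ⋯ σ_{i_k}^{x_k}`), `turns i μ ε` (the number of `j` such
that `|i_j - i_{j+1}| = 1` and `μ_j`, `μ_{j+1}` are `ε`-spread).

Vassiliev invariants (starting library `Pool.Agent.H832R3.VJ.Defs`): `Dia` (an oriented diagram with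
the finite set of its marked points), `Dia.IsLink` (it is a nonempty closed diagram), `IsVassiliev n v` (`v` is an integer valued invariant of oriented links
of order at most `n`), `unknot`.  `Pool.Agent.Q124.VN`: `SeparatedMod N d X Y` (some integer valued Vassiliev
invariant of order at most `d` takes values on `X` and `Y` which are not congruent modulo `N`; this implies
`Separated d X Y`, that the Kontsevich invariants of `X` and `Y` differ in degree at most `d`), `boxDia O w`
(the diagram with the word `w` in the box of `O`), `cost X` (`8` times the number of crossings plus `4` times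
the number of marked points of `X`).
-/

set_option autoImplicit false

namespace Pool.Agent.Results.MP_5f6b43_gt.LittlewoodOffordModN

open Finset LaurentPolynomial Pool.Agent.H891R2.Jones Pool.Agent.W639.RB Pool.Agent.Y463.SK
  Pool.Agent.Y463.UT Pool.Agent.Y463.MP Pool.Agent.Q124.VN
open Pool.Agent.H832R3.VJ (Dia IsVassiliev unknot Separated)

/-- **Random twist regions are detected by Vassiliev invariants modulo `N` of linear order.**  Let `m ≥ 3`.
There is a constant `C` such that for all `N ≥ 2` the following holds for all outsides `O` (with `c` crossings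
and `p` marked points) of a box with `m` strands, all sequences `i_1, …, i_k` of places, all independent random
exponents `x_1, …, x_k ∈ ℤ` (with finite supports and arbitrary distributions), all `ε > 0` and all `u` such
that for at least `u (m! + 1) (m! + 2)` values of `j` the places `i_j` and `i_{j+1}` are neighbouring and no
value of `x_j` or `x_{j+1}` has probability larger than `ε`, and all `d` such that
`8 (c + n) + 4 (p + m n) ≤ d` for the number `n = |x_1| + ⋯ + |x_k|` of crossings in the box, for all values of
the `x_j`.  Let `D(x)` be the diagram with `σ_{i_1}^{x_1} ⋯ σ_{i_k}^{x_k}` in the box.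

* If `O` with vertical strands in the box is a diagram of closed curves and the word with the exponents `s_j`
  respects the directions of the strands, then all `D(x)` with `x_j ≡ s_j` modulo 2 are link diagrams.
* Let `Y` be a diagram with `8 c_Y + 4 p_Y ≤ d`, for instance the unknot (`d ≥ 4`).  With probability at least
  `1 - C (8ε)^{u/2}` some Vassiliev invariant of order at most `d` takes values on `D(x)` and `Y` which are not
  congruent modulo `N`.
* For every `κ` there is `C'` (independent of `O`, `k`, `i`, `ε`, `u`, `d` and of the distributions) such that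
  if `c + p + n ≤ κ (u + 1) / ε` for all values of the `x_j`, and `u ≤ d`, then with probability at least
  `1 - C (C' ε)^{u/4}` the diagram `D(x)` is separated in this way from all diagrams `Y` with
  `16 (c_Y + p_Y) + 4 ≤ u` at once. -/
theorem result (m : ℕ) (hm : 3 ≤ m) :
    (∀ (O : Outer m), O.close.IsClosed → ∀ (k : ℕ) (i : Fin k → Fin (m - 1)) (s x : Fin k → ℤ),
      (∀ j, O.up (permW (tw i s) j) = O.up j) → (∀ j, (2 : ℤ) ∣ x j - s j) →
        (boxDia O (tw i x)).IsLink) ∧
    cost unknot = 4 ∧
    ∃ C : ℝ, ∀ N : ℕ, 2 ≤ N →
    (∀ (O : Outer m) (Y : Dia) (k : ℕ) (i : Fin k → Fin (m - 1)) (μ : Fin k → Law) (ε : ℝ), 0 < ε →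
      ∀ u : ℕ, u * ((m.factorial + 1) * (m.factorial + 2)) ≤ turns i μ ε → ∀ d : ℕ,
        (∀ x ∈ Fintype.piFinset (fun j => (μ j).A),
          8 * (O.crossings.length + ∑ j, (x j).natAbs) +
            4 * (Nat.card O.P + m * ∑ j, (x j).natAbs) ≤ d) → cost Y ≤ d →
        prob μ (fun x => ¬ SeparatedMod N d (boxDia O (tw i x)) Y) ≤ C * (8 * ε) ^ ((u : ℝ) / 2)) ∧
    (∀ κ : ℝ, ∃ C' : ℝ, ∀ (O : Outer m) (k : ℕ) (i : Fin k → Fin (m - 1)) (μ : Fin k → Law) (ε : ℝ),
      0 < ε → ∀ u : ℕ, u * ((m.factorial + 1) * (m.factorial + 2)) ≤ turns i μ ε → ∀ d : ℕ,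
        (∀ x ∈ Fintype.piFinset (fun j => (μ j).A),
          8 * (O.crossings.length + ∑ j, (x j).natAbs) +
            4 * (Nat.card O.P + m * ∑ j, (x j).natAbs) ≤ d) → u ≤ d →
        (∀ x ∈ Fintype.piFinset (fun j => (μ j).A), (osize O : ℝ) + ∑ j, |(x j : ℝ)| ≤ κ * (u + 1) / ε) →
          prob μ (fun x => ∃ Y : Dia, 16 * dsize Y.D + 4 ≤ u ∧
            ¬ SeparatedMod N d (boxDia O (tw i x)) Y) ≤ C * (C' * ε) ^ ((u : ℝ) / 4)) := by
  refine ⟨?_, cost_unknot, Real.exp 1 * CU m, fun N hN => ⟨?_, ?_⟩⟩
  · intro O hO k i s x hs hx
    apply boxDia_link (by omega) O hO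
    rw [perm_tw i s x hx]
    exact hs
  · intro O Y k i μ ε hε u hu d hd hY
    have h1 := final hm N hN O Y.D.fPoly k i μ ε hε u hu
    have h2 : 1 ≤ Real.exp 1 := Real.one_le_exp (by norm_num)
    have h3 : 0 ≤ CU m * (8 * ε) ^ ((u : ℝ) / 2) := (prob_nonneg μ _).trans h1
    rw [mul_assoc]
    refine le_trans ?_ (h1.trans (le_mul_of_one_le_left h3 h2))
    apply prob_mono
    intro x hx hs
    by_contra hne
    apply hs
    refine sepMod_cost N d _ _ ?_ hY hne
    rw [cost_boxDia, tw_length']
    exact hd x hx
  · intro κ
    obtain ⟨C', _, h⟩ := final2 hm N hN κ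
    refine ⟨C', fun O k i μ ε hε u hu d hd hud hsz => ?_⟩
    have h1 := h O k i μ ε hε u hu hsz
    refine le_trans ?_ ((final3 N O i μ u).trans h1)
    apply prob_mono
    rintro x hx ⟨Y, hY, hs⟩
    refine ⟨Y.P, Y.fin, Y.D, hY, ?_⟩
    by_contra hne
    apply hs
    refine sepMod_cost N d _ _ ?_ ?_ hne
    · rw [cost_boxDia, tw_length']
      exact hd x hx
    · unfold dsize at hY
      unfold cost
      omega

end Pool.Agent.Results.MP_5f6b43_gt.LittlewoodOffordModN
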